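import Pool.Agent.Helper54_QE.Defs

/-!
# Modules MP, NULL and ZERO: resampling
-/

set_option autoImplicit false

open MeasureTheory Filter Topology
open scoped ENNReal

namespace Pool.Agent.QE

open Pool.Agent.Anderson

variable {d : ℕ} (μ : Measure ℝ) [IsProbabilityMeasure μ]

/-- Resampling one coordinate preserves the law. -/
theorem mpres (x₀ : Site d) :
    MeasurePreserving (fun p : Cfg d × ℝ => Function.update p.1 x₀ p.2) ((PP d μ).prod μ)
      (PP d μ) := by
  have hm : Measurable (fun p : Cfg d × ℝ => Function.update p.1 x₀ p.2) := measurable_update'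
  refine ⟨hm, ?_⟩
  apply Measure.eq_infinitePi
  intro s t ht
  rw [Measure.map_apply hm (MeasurableSet.pi s.countable_toSet fun i _ => ht i)]
  by_cases h0 : x₀ ∈ s
  · have e : (fun p : Cfg d × ℝ => Function.update p.1 x₀ p.2) ⁻¹' Set.pi (↑s) t =
        (Set.pi (↑(s.erase x₀)) t) ×ˢ (t x₀) := by
      ext p
      simp only [Set.mem_preimage, Set.mem_pi, Set.mem_prod, Finset.mem_coe, Finset.mem_erase]
      constructor
      · intro h
        refine ⟨fun i hi => ?_, ?_⟩
        · have := h i hi.2
          rwa [Function.update_of_ne hi.1] at this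
        · have := h x₀ h0
          rwa [Function.update_self] at this
      · rintro ⟨h1, h2⟩ i hi
        by_cases hix : i = x₀
        · subst hix; rwa [Function.update_self]
        · rw [Function.update_of_ne hix]; exact h1 i ⟨hix, hi⟩
    rw [e, Measure.prod_prod, Measure.infinitePi_pi _ (fun i _ => ht i),
      Finset.prod_erase_mul s (fun i => μ (t i)) h0]
  · have e : (fun p : Cfg d × ℝ => Function.update p.1 x₀ p.2) ⁻¹' Set.pi (↑s) t =
        (Set.pi (↑s) t) ×ˢ Set.univ := by
      ext p
      simp only [Set.mem_preimage, Set.mem_pi, Set.mem_prod, Finset.mem_coe, Set.mem_univ, and_true]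
      refine forall₂_congr fun i hi => ?_
      have hne : i ≠ x₀ := by rintro rfl; exact h0 hi
      rw [Function.update_of_ne hne]
    rw [e, Measure.prod_prod, Measure.infinitePi_pi _ (fun i _ => ht i), measure_univ, mul_one]

instance : SFinite lam := by
  unfold lam
  infer_instance

/-- Module MP. -/
theorem mp : MPStatement := by
  intro d μ _ x₀
  have h1 := measurePreserving_prodAssoc (PP d μ) lam μ
  have h2 := (MeasurePreserving.id (PP d μ)).prod
    (Measure.measurePreserving_swap (μ := lam) (ν := μ))
  have h3 := (measurePreserving_prodAssoc (PP d μ) μ lam).symm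
  have h4 := (mpres μ x₀).prod (MeasurePreserving.id lam)
  have h5 := h4.comp (h3.comp (h2.comp h1))
  exact h5

/-- Module NULL. -/
theorem null : NullStatement := by
  intro d μ _ y S hS hae
  have hmp := mp d μ y
  have hmeas : MeasurableSet (upd y ⁻¹' S) := hmp.measurable hS
  set q : Cfg d × ℝ → ℝ≥0∞ := fun p => μ (Prod.mk p ⁻¹' (upd y ⁻¹' S)) with hq
  have hqm : Measurable q := measurable_measure_prodMk_left hmeas
  have hqq : ∀ p v, q (upd y (p, v)) = q p := by
    intro p v
    simp only [hq]
    congr 1
    ext w
    simp [upd]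
  have hKS : (KK d μ) S = ∫⁻ p, q p ∂(KK d μ) := by
    rw [← hmp.measure_preimage hS.nullMeasurableSet, Measure.prod_apply hmeas]
  have h0 : ∫⁻ p, S.indicator q p ∂(KK d μ) = 0 := by
    rw [lintegral_eq_zero_iff (hqm.indicator hS)]
    have h1 := Measure.ae_ae_of_ae_prod hae
    filter_upwards [h1] with p hp
    by_cases hpS : p ∈ S
    · rw [Set.indicator_of_mem hpS]
      have h2 : ∀ᵐ v ∂μ, upd y (p, v) ∉ S := hp.mono fun v hv => hv hpS
      have h3 : μ {v | ¬ upd y (p, v) ∉ S} = 0 := h2
      simp only [hq, Pi.zero_apply]
      refine measure_mono_null ?_ h3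
      intro v hv hcon
      exact hcon hv
    · rw [Set.indicator_of_notMem hpS]; rfl
  have h1 : ∫⁻ p, S.indicator q p ∂(KK d μ) = ∫⁻ p, q p * q p ∂(KK d μ) := by
    rw [← hmp.lintegral_comp (hqm.indicator hS),
      lintegral_prod (fun ω => S.indicator q (upd y ω))
        ((hqm.indicator hS).comp hmp.measurable).aemeasurable]
    refine lintegral_congr fun p => ?_
    have h2 : ∀ v, S.indicator q (upd y (p, v)) =
        (Prod.mk p ⁻¹' (upd y ⁻¹' S)).indicator (fun _ => q p) v := by
      intro v
      by_cases hv : upd y (p, v) ∈ S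
      · rw [Set.indicator_of_mem hv, Set.indicator_of_mem (by exact hv), hqq]
      · rw [Set.indicator_of_notMem hv, Set.indicator_of_notMem (by exact hv)]
    simp only [h2]
    rw [lintegral_indicator (measurable_prodMk_left hmeas), lintegral_const,
      Measure.restrict_apply MeasurableSet.univ, Set.univ_inter]
  rw [h0] at h1
  have h2 := (lintegral_eq_zero_iff (hqm.mul hqm)).1 h1.symm
  rw [hKS, lintegral_eq_zero_iff hqm]
  filter_upwards [h2] with p hp
  simpa using hp

/-- the integral against functions of finitely many coordinates -/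
theorem zero_aux (f : Cfg d → ℝ) (hf : Measurable f) (C : ℝ) (hC : ∀ V, |f V| ≤ C)
    (hinv : ∀ y : Site d, ∀ᵐ p ∂((PP d μ).prod μ), f (Function.update p.1 y p.2) = f p.1)
    (h0 : ∫ V, f V ∂(PP d μ) = 0) (Λ : Finset (Site d)) :
    ∀ (h : Cfg d → ℝ), Measurable h → (∃ K, ∀ V, |h V| ≤ K) →
      (∀ V W : Cfg d, (∀ x ∈ Λ, V x = W x) → h V = h W) →
      ∫ V, f V * h V ∂(PP d μ) = 0 := by
  classical
  induction Λ using Finset.induction_on with
  | empty =>
    intro h _ _ hdep
    have : ∀ V, h V = h 0 := fun V => hdep V 0 (by simp)
    simp only [this]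
    rw [integral_mul_const, h0, zero_mul]
  | insert y Λ hy ih =>
    intro h hm ⟨K, hK⟩ hdep
    have hmp := mpres (d := d) μ y
    have hfh : Measurable fun V => f V * h V := hf.mul hm
    have hb : ∀ V W : Cfg d, |f V * h W| ≤ C * K := by
      intro V W
      rw [abs_mul]
      exact mul_le_mul (hC V) (hK W) (abs_nonneg _) ((abs_nonneg _).trans (hC V))
    have e1 : ∫ V, f V * h V ∂(PP d μ) = ∫ p, f (Function.update p.1 y p.2) *
        h (Function.update p.1 y p.2) ∂((PP d μ).prod μ) := by
      have := integral_map (μ := (PP d μ).prod μ) hmp.measurable.aemeasurable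
        (f := fun V => f V * h V) hfh.aestronglyMeasurable
      rwa [hmp.map_eq] at this
    have e2 : ∫ p, f (Function.update p.1 y p.2) * h (Function.update p.1 y p.2)
        ∂((PP d μ).prod μ) = ∫ p, f p.1 * h (Function.update p.1 y p.2) ∂((PP d μ).prod μ) := by
      refine integral_congr_ae ?_
      filter_upwards [hinv y] with p hp
      rw [hp]
    have hint : Integrable (fun p : Cfg d × ℝ => f p.1 * h (Function.update p.1 y p.2))
        ((PP d μ).prod μ) := by
      refine Integrable.of_bound (C := C * K) ?_ (Eventually.of_forall fun p => hb _ _)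
      exact ((hf.comp measurable_fst).mul (hm.comp hmp.measurable)).aestronglyMeasurable
    have e3 : ∫ p, f p.1 * h (Function.update p.1 y p.2) ∂((PP d μ).prod μ) =
        ∫ V, f V * (∫ v, h (Function.update V y v) ∂μ) ∂(PP d μ) := by
      rw [integral_prod _ hint]
      refine integral_congr_ae (Eventually.of_forall fun V => ?_)
      exact integral_const_mul (f V) (fun v => h (Function.update V y v))
    rw [e1, e2, e3]
    refine ih (fun V => ∫ v, h (Function.update V y v) ∂μ) ?_ ⟨K, ?_⟩ ?_
    · exact ((hm.comp hmp.measurable).stronglyMeasurable.integral_prod_right').measurable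
    · intro V
      have := norm_integral_le_of_norm_le_const (μ := μ) (f := fun v => h (Function.update V y v))
        (C := K) (Eventually.of_forall fun v => hK _)
      simpa using this
    · intro V W hVW
      refine integral_congr_ae (Eventually.of_forall fun v => ?_)
      refine hdep _ _ fun x hx => ?_
      by_cases hxy : x = y
      · subst hxy
        simp
      · rw [Function.update_of_ne hxy, Function.update_of_ne hxy]
        exact hVW x ((Finset.mem_insert.1 hx).resolve_left hxy)

/-- Module ZERO. -/
theorem zero : ZeroStatement := by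
  intro d μ _ f hf C hC hinv
  set c := ∫ W, f W ∂(PP d μ) with hc
  have hfint : Integrable f (PP d μ) :=
    Integrable.of_bound (C := C) hf.aestronglyMeasurable (Eventually.of_forall hC)
  set g : Cfg d → ℝ := fun V => f V - c with hg
  have hgm : Measurable g := hf.sub_const c
  have hgb : ∀ V, |g V| ≤ C + |c| := fun V => (abs_sub _ _).trans (by
    have := hC V
    gcongr)
  have hgint : Integrable g (PP d μ) := hfint.sub (integrable_const c)
  have hg0 : ∫ V, g V ∂(PP d μ) = 0 := by
    simp only [hg]
    rw [integral_sub hfint (integrable_const c)]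
    simp [hc]
  have hginv : ∀ y : Site d, ∀ᵐ p ∂((PP d μ).prod μ), g (Function.update p.1 y p.2) = g p.1 := by
    intro y
    filter_upwards [hinv y] with p hp
    simp only [hg, hp]
  have key : ∀ S : Set (Cfg d), MeasurableSet S → ∫ V in S, g V ∂(PP d μ) = 0 := by
    intro S hS
    induction S, hS using MeasurableSpace.induction_on_inter
      (generateFrom_measurableCylinders (α := fun _ : Site d => ℝ)).symm
      isPiSystem_measurableCylinders with
    | empty => simp
    | basic t ht =>
      obtain ⟨Λ, B, hB, rfl⟩ := (mem_measurableCylinders _).1 ht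
      have hcyl : MeasurableSet (cylinder (α := fun _ : Site d => ℝ) Λ B) := hB.cylinder Λ
      rw [← integral_indicator hcyl]
      have := zero_aux μ g hgm (C + |c|) hgb hginv hg0 Λ ((cylinder Λ B).indicator fun _ => 1)
        (measurable_const.indicator hcyl) ⟨1, fun V => ?_⟩ ?_
      · rw [← this]
        refine integral_congr_ae (Eventually.of_forall fun V => ?_)
        by_cases hV : V ∈ cylinder Λ B <;> simp [hV]
      · by_cases hV : V ∈ cylinder Λ B <;> simp [hV]
      · intro V W hVW
        have : V ∈ cylinder Λ B ↔ W ∈ cylinder Λ B := by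
          rw [mem_cylinder, mem_cylinder]
          have e : Λ.restrict V = Λ.restrict W := by
            funext x
            exact hVW x x.2
          rw [e]
        by_cases hV : V ∈ cylinder Λ B
        · rw [Set.indicator_of_mem hV, Set.indicator_of_mem (this.1 hV)]
        · rw [Set.indicator_of_notMem hV, Set.indicator_of_notMem (fun h => hV (this.2 h))]
    | compl t ht ih =>
      rw [setIntegral_compl ht hgint, ih, hg0, sub_zero]
    | iUnion F hd hF ih =>
      rw [integral_iUnion hF hd hgint.integrableOn]
      simp [ih]
  have hgz := hgint.ae_eq_zero_of_forall_setIntegral_eq_zero (fun S hS _ => key S hS)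
  filter_upwards [hgz] with V hV
  have : f V - c = 0 := hV
  linarith

end Pool.Agent.QE
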