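import Pool.Agent.Helper54_QE.Defs

/-!
# Module SEQ: a common sequence
-/

set_option autoImplicit false

open MeasureTheory Filter Topology
open scoped ENNReal

namespace Pool.Agent.QE

theorem seq : SeqStatement := by
  intro α _ κ ι _ q hq
  obtain ⟨f, hf⟩ := exists_injective_nat ι
  have hchoice : ∀ k : ℕ, ∃ ε : ℝ, 0 < ε ∧ ε < 1 / ((k : ℝ) + 1) ∧
      ∀ i, f i ≤ k → κ {ω | 1 / ((k : ℝ) + 1) ≤ |q i ε ω|} ≤ (1 / 2 : ℝ≥0∞) ^ k := by
    intro k
    have hpos : (0 : ℝ) < 1 / ((k : ℝ) + 1) := by positivity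
    have hfin : {i | f i ≤ k}.Finite := (Set.finite_le_nat k).preimage hf.injOn
    have h1 : ∀ᶠ ε in 𝓝[>] (0 : ℝ), ∀ i ∈ {i | f i ≤ k},
        κ {ω | 1 / ((k : ℝ) + 1) ≤ |q i ε ω|} ≤ (1 / 2 : ℝ≥0∞) ^ k := by
      rw [Filter.eventually_all_finite hfin]
      intro i _
      have hp : (0 : ℝ≥0∞) < (1 / 2 : ℝ≥0∞) ^ k := by
        apply ENNReal.pow_pos
        simp
      exact ((hq i _ hpos).eventually (gt_mem_nhds hp)).mono fun ε h => le_of_lt h
    have h2 : ∀ᶠ ε in 𝓝[>] (0 : ℝ), ε < 1 / ((k : ℝ) + 1) :=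
      nhdsWithin_le_nhds (gt_mem_nhds hpos)
    obtain ⟨ε, ⟨ha, hb⟩, hc⟩ := ((h1.and h2).and self_mem_nhdsWithin).exists
    exact ⟨ε, hc, hb, fun i hi => ha i hi⟩
  choose e he0 he1 he2 using hchoice
  refine ⟨e, he0, ?_, ?_⟩
  · exact squeeze_zero (fun k => (he0 k).le) (fun k => (he1 k).le)
      tendsto_one_div_add_atTop_nhds_zero_nat
  · intro i
    have hsum : ∑' k : ℕ, κ {ω | f i ≤ k ∧ 1 / ((k : ℝ) + 1) ≤ |q i (e k) ω|} ≠ ∞ := by
      refine ne_top_of_le_ne_top (b := ∑' k : ℕ, (1 / 2 : ℝ≥0∞) ^ k) ?_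
        (ENNReal.tsum_le_tsum fun k => ?_)
      · rw [ENNReal.tsum_geometric]
        simp
      · by_cases h : f i ≤ k
        · refine (measure_mono ?_).trans (he2 k i h)
          intro ω hω
          exact hω.2
        · have : {ω | f i ≤ k ∧ 1 / ((k : ℝ) + 1) ≤ |q i (e k) ω|} = ∅ := by
            ext ω
            simp [h]
          rw [this, measure_empty]
          exact bot_le
    filter_upwards [ae_eventually_notMem hsum] with ω hω
    rw [Metric.tendsto_atTop']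
    intro δ hδ
    rw [eventually_atTop] at hω
    obtain ⟨N, hN⟩ := hω
    obtain ⟨M, hM⟩ := exists_nat_one_div_lt hδ
    refine ⟨max N (max M (f i)), fun k hk => ?_⟩
    have hk1 : N ≤ k := (le_max_left _ _).trans hk.le
    have hk2 : M ≤ k := ((le_max_left _ _).trans (le_max_right _ _)).trans hk.le
    have hk3 : f i ≤ k := ((le_max_right _ _).trans (le_max_right _ _)).trans hk.le
    have h1 := hN k hk1
    simp only [not_and, not_le] at h1
    have h2 := h1 hk3
    rw [dist_zero_right, Real.norm_eq_abs]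
    refine h2.trans_le (le_trans ?_ hM.le)
    have : (M : ℝ) ≤ k := by exact_mod_cast hk2
    apply one_div_le_one_div_of_le
    · positivity
    · linarith

end Pool.Agent.QE
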